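import Pool.Agent.H21.Axial

namespace Pool.Agent.Results.MP_8db76d_al.Disconnected

section defs
variable {K : Type} [Field K] {A : Type} [NonUnitalNonAssocCommRing A] [Module K A]
  [IsScalarTower K A A] [SMulCommClass K A A]

/-- the eigenspace of multiplication by `a` -/
def Eig (a : A) (l : K) : Submodule K A := Module.End.eigenspace (LinearMap.mul K A a) l

/-- primitive axis for the fusion law `(F, star)` -/
def IsPrimAxis (F : Set K) (star : K → K → Set K) (a : A) : Prop :=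
  a ≠ 0 ∧ a * a = a ∧ (⨆ l ∈ F, Eig a l) = ⊤ ∧
    (∀ l ∈ F, ∀ m ∈ F, ∀ u ∈ Eig a l, ∀ v ∈ Eig a m, u * v ∈ ⨆ n ∈ star l m, Eig a n) ∧
    Eig a (1 : K) = Submodule.span K {a}

open Classical in
/-- the fusion law of Jordan type on `{1, 0, η}` -/
noncomputable def jordan (η : K) (l m : K) : Set K :=
  if l = η ∧ m = η then {1, 0} else if l = η ∨ m = η then {η} else if l = m then {l} else ∅

/-- nonzero, and not a direct sum of at least two nonzero mutually annihilating ideals -/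
def Indecomposable (K : Type) [Field K] (A : Type) [NonUnitalNonAssocCommRing A] [Module K A] :
    Prop :=
  Nontrivial A ∧ ∀ k : ℕ, 2 ≤ k → ∀ I : Fin k → Submodule K A, (∀ i, I i ≠ ⊥) →
    (∀ i, ∀ x ∈ I i, ∀ y : A, y * x ∈ I i) →
    (∀ i j, i ≠ j → ∀ x ∈ I i, ∀ y ∈ I j, x * y = 0) → ¬ DirectSum.IsInternal I

/-- the non-annihilation graph -/
def nonAnn (X : Set A) : SimpleGraph X := SimpleGraph.fromRel fun a b => (a : A) * b ≠ 0

theorem mem_Eig (a : A) (l : K) (v : A) : v ∈ Eig a l ↔ a * v = l • v := by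
  simp [Eig, Module.End.mem_eigenspace_iff]

theorem axis_of (a : A) (η : K) (h1 : η ≠ 1) (h0 : η ≠ 0) (ha : a ≠ 0) (haa : a * a = a)
    (hdec : ∀ v : A, ∃ x y z : A, a * x = (1 : K) • x ∧ a * y = (0 : K) • y ∧ a * z = η • z ∧
      v = x + y + z)
    (hprim : ∀ v : A, a * v = (1 : K) • v → ∃ r : K, r • a = v)
    (h00 : ∀ u v : A, a * u = (0 : K) • u → a * v = (0 : K) • v → a * (u * v) = (0 : K) • (u * v))
    (h0e : ∀ u v : A, a * u = (0 : K) • u → a * v = η • v → a * (u * v) = η • (u * v))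
    (hee : ∀ u v : A, a * u = η • u → a * v = η • v → ∃ x y : A,
      a * x = (1 : K) • x ∧ a * y = (0 : K) • y ∧ u * v = x + y) :
    IsPrimAxis {1, 0, η} (jordan η) a := by
  have hle : ∀ (S : Set K) (n : K), n ∈ S → ∀ v : A, a * v = n • v → v ∈ ⨆ n ∈ S, Eig a n :=
    fun S n hn v hv => (le_iSup₂ (f := fun n (_ : n ∈ S) => Eig a n) n hn) ((mem_Eig _ _ _).2 hv)
  have one_l : ∀ (m : K) (u v : A), a * u = (1 : K) • u → a * v = m • v → ∃ r : K,
      u * v = (r * m) • v := by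
    intro m u v hu hv
    obtain ⟨r, rfl⟩ := hprim u hu
    exact ⟨r, by rw [smul_mul_assoc, hv, smul_smul]⟩
  refine ⟨ha, haa, ?_, ?_, ?_⟩
  · rw [eq_top_iff]
    intro v _
    obtain ⟨x, y, z, hx, hy, hz, rfl⟩ := hdec v
    exact add_mem (add_mem (hle _ 1 (by simp) x hx) (hle _ 0 (by simp) y hy))
      (hle _ η (by simp) z hz)
  · intro l hl m hm u hu v hv
    rw [mem_Eig] at hu hv
    simp only [Set.mem_insert_iff, Set.mem_singleton_iff] at hl hm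
    rcases hl with rfl | rfl | rfl <;> rcases hm with rfl | rfl | rfl
    · obtain ⟨r, hr⟩ := one_l _ u v hu hv
      rw [hr]
      exact Submodule.smul_mem _ _ (hle _ 1 (by simp [jordan, h1.symm]) v hv)
    · obtain ⟨r, hr⟩ := one_l _ u v hu hv
      rw [hr]
      simp
    · obtain ⟨r, hr⟩ := one_l _ u v hu hv
      rw [hr]
      exact Submodule.smul_mem _ _ (hle _ m (by simp [jordan, h1.symm]) v hv)
    · obtain ⟨r, hr⟩ := one_l _ v u hv hu
      rw [mul_comm, hr]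
      simp
    · exact hle _ 0 (by simp [jordan, h0.symm]) _ (h00 u v hu hv)
    · exact hle _ m (by simp [jordan, h0.symm]) _ (h0e u v hu hv)
    · obtain ⟨r, hr⟩ := one_l _ v u hv hu
      rw [mul_comm, hr]
      exact Submodule.smul_mem _ _ (hle _ l (by simp [jordan, h1.symm]) u hu)
    · rw [mul_comm]
      exact hle _ l (by simp [jordan, h0.symm]) _ (h0e v u hv hu)
    · obtain ⟨x, y, hx, hy, h⟩ := hee u v hu hv
      rw [h]
      exact add_mem (hle _ 1 (by simp [jordan]) x hx) (hle _ 0 (by simp [jordan]) y hy)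
  · ext v
    rw [mem_Eig, Submodule.mem_span_singleton]
    constructor
    · exact hprim v
    · rintro ⟨r, rfl⟩
      rw [mul_smul_comm, haa, one_smul]

end defs

open Pool.Agent.H21.Axial

theorem co {x y : A} (h : x = y) : x 0 = y 0 ∧ x 1 = y 1 ∧ x 2 = y 2 ∧ x 3 = y 3 ∧ x 4 = y 4 := by
  subst h
  simp

theorem z_a (u : A) (h : ea * u = (0 : ℚ) • u) : u 0 = 0 ∧ u 1 = 0 := by
  obtain ⟨h0, h1, h2, h3, h4⟩ := co h
  simp only [ea, mul0, mul1, mul2, mul3, mul4, mk0, mk1, mk2, mk3, smul_app] at h0 h1 h2 h3 h4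
  constructor <;> linarith

theorem n_a (u : A) (h : ea * u = (-1 : ℚ) • u) :
    u 1 = 2 * u 0 ∧ u 2 = 0 ∧ u 3 = 0 ∧ u 4 = -2 * u 0 := by
  obtain ⟨h0, h1, h2, h3, h4⟩ := co h
  simp only [ea, mul0, mul1, mul2, mul3, mul4, mk0, mk1, mk2, mk3, smul_app] at h0 h1 h2 h3 h4
  refine ⟨?_, ?_, ?_, ?_⟩ <;> linarith

theorem o_a (u : A) (h : ea * u = (1 : ℚ) • u) : ∃ r : ℚ, r • ea = u := by
  obtain ⟨h0, h1, h2, h3, h4⟩ := co h
  simp only [ea, mul0, mul1, mul2, mul3, mul4, mk0, mk1, mk2, mk3, smul_app] at h0 h1 h2 h3 h4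
  refine ⟨u 0, ?_⟩
  apply ext' <;> simp only [ea, mk0, mk1, mk2, mk3, mk4, smul_app] <;> linarith

theorem ax_a : IsPrimAxis {1, 0, -1} (jordan (-1 : ℚ)) ea := by
  refine axis_of ea (-1) (by norm_num) (by norm_num) (fun h => by simpa [ea] using co h)
    (by apply ext' <;> simp [ea]) (fun v => ?_) o_a (fun u v hu hv => ?_)
    (fun u v hu hv => ?_) (fun u v hu hv => ?_)
  · refine ⟨mk (v 0 - v 1 / 2) (0) (0) (0) (0), mk (0) (0) (v 2) (v 3) (v 4 + v 1),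
      mk (v 1 / 2) (v 1) (0) (0) (- v 1), ?_, ?_, ?_, ?_⟩ <;> apply ext' <;>
      simp [ea] <;> ring
  · obtain ⟨a1, a2⟩ := z_a u hu
    obtain ⟨b1, b2⟩ := z_a v hv
    apply ext' <;> simp [ea, a1, a2, b1, b2]
  · obtain ⟨a1, a2⟩ := z_a u hu
    obtain ⟨b1, b2, b3, b4⟩ := n_a v hv
    apply ext' <;> simp [ea, a1, a2, b1, b2, b3, b4]
  · obtain ⟨a1, a2, a3, a4⟩ := n_a u hu
    obtain ⟨b1, b2, b3, b4⟩ := n_a v hv
    refine ⟨mk (-3 * u 0 * v 0) (0) (0) (0) (0), mk (0) (0) (0) (0) (4 * u 0 * v 0), ?_, ?_, ?_⟩ <;>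
      apply ext' <;> simp [ea, a1, a2, a3, b1, b2, b3] <;> ring

theorem z_b (u : A) (h : eb * u = (0 : ℚ) • u) : u 1 = 0 ∧ u 0 = 0 := by
  obtain ⟨h0, h1, h2, h3, h4⟩ := co h
  simp only [eb, mul0, mul1, mul2, mul3, mul4, mk0, mk1, mk2, mk3, smul_app] at h0 h1 h2 h3 h4
  constructor <;> linarith

theorem n_b (u : A) (h : eb * u = (-1 : ℚ) • u) :
    u 0 = 2 * u 1 ∧ u 2 = 0 ∧ u 3 = 0 ∧ u 4 = -2 * u 1 := by
  obtain ⟨h0, h1, h2, h3, h4⟩ := co h
  simp only [eb, mul0, mul1, mul2, mul3, mul4, mk0, mk1, mk2, mk3, smul_app] at h0 h1 h2 h3 h4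
  refine ⟨?_, ?_, ?_, ?_⟩ <;> linarith

theorem o_b (u : A) (h : eb * u = (1 : ℚ) • u) : ∃ r : ℚ, r • eb = u := by
  obtain ⟨h0, h1, h2, h3, h4⟩ := co h
  simp only [eb, mul0, mul1, mul2, mul3, mul4, mk0, mk1, mk2, mk3, smul_app] at h0 h1 h2 h3 h4
  refine ⟨u 1, ?_⟩
  apply ext' <;> simp only [eb, mk0, mk1, mk2, mk3, mk4, smul_app] <;> linarith

theorem ax_b : IsPrimAxis {1, 0, -1} (jordan (-1 : ℚ)) eb := by
  refine axis_of eb (-1) (by norm_num) (by norm_num) (fun h => by simpa [eb] using co h)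
    (by apply ext' <;> simp [eb]) (fun v => ?_) o_b (fun u v hu hv => ?_)
    (fun u v hu hv => ?_) (fun u v hu hv => ?_)
  · refine ⟨mk (0) (v 1 - v 0 / 2) (0) (0) (0), mk (0) (0) (v 2) (v 3) (v 4 + v 0),
      mk (v 0) (v 0 / 2) (0) (0) (- v 0), ?_, ?_, ?_, ?_⟩ <;> apply ext' <;>
      simp [eb] <;> ring
  · obtain ⟨a1, a2⟩ := z_b u hu
    obtain ⟨b1, b2⟩ := z_b v hv
    apply ext' <;> simp [eb, a1, a2, b1, b2]
  · obtain ⟨a1, a2⟩ := z_b u hu
    obtain ⟨b1, b2, b3, b4⟩ := n_b v hv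
    apply ext' <;> simp [eb, a1, a2, b1, b2, b3, b4]
  · obtain ⟨a1, a2, a3, a4⟩ := n_b u hu
    obtain ⟨b1, b2, b3, b4⟩ := n_b v hv
    refine ⟨mk (0) (-3 * u 1 * v 1) (0) (0) (0), mk (0) (0) (0) (0) (4 * u 1 * v 1), ?_, ?_, ?_⟩ <;>
      apply ext' <;> simp [eb, a1, a2, a3, b1, b2, b3] <;> ring

theorem z_c (u : A) (h : ec * u = (0 : ℚ) • u) : u 2 = 0 ∧ u 3 = 0 := by
  obtain ⟨h0, h1, h2, h3, h4⟩ := co h
  simp only [ec, mul0, mul1, mul2, mul3, mul4, mk0, mk1, mk2, mk3, smul_app] at h0 h1 h2 h3 h4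
  constructor <;> linarith

theorem n_c (u : A) (h : ec * u = (-1 : ℚ) • u) :
    u 3 = 2 * u 2 ∧ u 0 = 0 ∧ u 1 = 0 ∧ u 4 = -2 * u 2 := by
  obtain ⟨h0, h1, h2, h3, h4⟩ := co h
  simp only [ec, mul0, mul1, mul2, mul3, mul4, mk0, mk1, mk2, mk3, smul_app] at h0 h1 h2 h3 h4
  refine ⟨?_, ?_, ?_, ?_⟩ <;> linarith

theorem o_c (u : A) (h : ec * u = (1 : ℚ) • u) : ∃ r : ℚ, r • ec = u := by
  obtain ⟨h0, h1, h2, h3, h4⟩ := co h
  simp only [ec, mul0, mul1, mul2, mul3, mul4, mk0, mk1, mk2, mk3, smul_app] at h0 h1 h2 h3 h4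
  refine ⟨u 2, ?_⟩
  apply ext' <;> simp only [ec, mk0, mk1, mk2, mk3, mk4, smul_app] <;> linarith

theorem ax_c : IsPrimAxis {1, 0, -1} (jordan (-1 : ℚ)) ec := by
  refine axis_of ec (-1) (by norm_num) (by norm_num) (fun h => by simpa [ec] using co h)
    (by apply ext' <;> simp [ec]) (fun v => ?_) o_c (fun u v hu hv => ?_)
    (fun u v hu hv => ?_) (fun u v hu hv => ?_)
  · refine ⟨mk (0) (0) (v 2 - v 3 / 2) (0) (0), mk (v 0) (v 1) (0) (0) (v 4 + v 3),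
      mk (0) (0) (v 3 / 2) (v 3) (- v 3), ?_, ?_, ?_, ?_⟩ <;> apply ext' <;>
      simp [ec] <;> ring
  · obtain ⟨a1, a2⟩ := z_c u hu
    obtain ⟨b1, b2⟩ := z_c v hv
    apply ext' <;> simp [ec, a1, a2, b1, b2]
  · obtain ⟨a1, a2⟩ := z_c u hu
    obtain ⟨b1, b2, b3, b4⟩ := n_c v hv
    apply ext' <;> simp [ec, a1, a2, b1, b2, b3, b4]
  · obtain ⟨a1, a2, a3, a4⟩ := n_c u hu
    obtain ⟨b1, b2, b3, b4⟩ := n_c v hv
    refine ⟨mk (0) (0) (-3 * u 2 * v 2) (0) (0), mk (0) (0) (0) (0) (4 * u 2 * v 2), ?_, ?_, ?_⟩ <;>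
      apply ext' <;> simp [ec, a1, a2, a3, b1, b2, b3] <;> ring

theorem z_d (u : A) (h : ed * u = (0 : ℚ) • u) : u 3 = 0 ∧ u 2 = 0 := by
  obtain ⟨h0, h1, h2, h3, h4⟩ := co h
  simp only [ed, mul0, mul1, mul2, mul3, mul4, mk0, mk1, mk2, mk3, smul_app] at h0 h1 h2 h3 h4
  constructor <;> linarith

theorem n_d (u : A) (h : ed * u = (-1 : ℚ) • u) :
    u 2 = 2 * u 3 ∧ u 0 = 0 ∧ u 1 = 0 ∧ u 4 = -2 * u 3 := by
  obtain ⟨h0, h1, h2, h3, h4⟩ := co h
  simp only [ed, mul0, mul1, mul2, mul3, mul4, mk0, mk1, mk2, mk3, smul_app] at h0 h1 h2 h3 h4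
  refine ⟨?_, ?_, ?_, ?_⟩ <;> linarith

theorem o_d (u : A) (h : ed * u = (1 : ℚ) • u) : ∃ r : ℚ, r • ed = u := by
  obtain ⟨h0, h1, h2, h3, h4⟩ := co h
  simp only [ed, mul0, mul1, mul2, mul3, mul4, mk0, mk1, mk2, mk3, smul_app] at h0 h1 h2 h3 h4
  refine ⟨u 3, ?_⟩
  apply ext' <;> simp only [ed, mk0, mk1, mk2, mk3, mk4, smul_app] <;> linarith

theorem ax_d : IsPrimAxis {1, 0, -1} (jordan (-1 : ℚ)) ed := by
  refine axis_of ed (-1) (by norm_num) (by norm_num) (fun h => by simpa [ed] using co h)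
    (by apply ext' <;> simp [ed]) (fun v => ?_) o_d (fun u v hu hv => ?_)
    (fun u v hu hv => ?_) (fun u v hu hv => ?_)
  · refine ⟨mk (0) (0) (0) (v 3 - v 2 / 2) (0), mk (v 0) (v 1) (0) (0) (v 4 + v 2),
      mk (0) (0) (v 2) (v 2 / 2) (- v 2), ?_, ?_, ?_, ?_⟩ <;> apply ext' <;>
      simp [ed] <;> ring
  · obtain ⟨a1, a2⟩ := z_d u hu
    obtain ⟨b1, b2⟩ := z_d v hv
    apply ext' <;> simp [ed, a1, a2, b1, b2]
  · obtain ⟨a1, a2⟩ := z_d u hu
    obtain ⟨b1, b2, b3, b4⟩ := n_d v hv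
    apply ext' <;> simp [ed, a1, a2, b1, b2, b3, b4]
  · obtain ⟨a1, a2, a3, a4⟩ := n_d u hu
    obtain ⟨b1, b2, b3, b4⟩ := n_d v hv
    refine ⟨mk (0) (0) (0) (-3 * u 3 * v 3) (0), mk (0) (0) (0) (0) (4 * u 3 * v 3), ?_, ?_, ?_⟩ <;>
      apply ext' <;> simp [ed, a1, a2, a3, b1, b2, b3] <;> ring

theorem hab : ea * eb + ea + eb = ew := by apply ext' <;> simp [ea, eb, ew]
theorem hcd : ec * ed + ec + ed = ew := by apply ext' <;> simp [ec, ed, ew]
theorem hab' : ea * eb ≠ 0 := fun h => by simpa [ea, eb] using co h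
theorem hcd' : ec * ed ≠ 0 := fun h => by simpa [ec, ed] using co h
theorem hw : ew ≠ 0 := fun h => by simpa [ew] using co h

theorem two_sides (I J : Submodule ℚ A) (hI : ∀ x ∈ I, ∀ y : A, y * x ∈ I)
    (hJ : ∀ x ∈ J, ∀ y : A, y * x ∈ J) (hIJ : ∀ x ∈ I, ∀ y ∈ J, x * y = 0)
    (hd : Disjoint I J) (ht : I ⊔ J = ⊤) : I = ⊥ ∨ J = ⊥ := by
  have side : ∀ e : A, e * e = e → (∀ v : A, e * v = (1 : ℚ) • v → ∃ r : ℚ, r • e = v) →
      e ∈ I ∨ e ∈ J := by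
    intro e hee hp
    obtain ⟨i, hi, j, hj, h⟩ := Submodule.mem_sup.1 (ht ▸ Submodule.mem_top : e ∈ I ⊔ J)
    have h1 : e * i = i * i := by rw [← h, add_mul, mul_comm j i, hIJ i hi j hj, add_zero]
    have h2 : e * j = j * j := by rw [← h, add_mul, hIJ i hi j hj, zero_add]
    have h3 : e * i + e * j = i + j := by rw [← mul_add, h, hee]
    have h4 : e * i - i = j - e * j := by
      rw [sub_eq_sub_iff_add_eq_add, h3, add_comm]
    have h5 : e * i - i = 0 := (Submodule.disjoint_def.1 hd) _ (I.sub_mem (hI i hi e) hi)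
      (h4 ▸ J.sub_mem hj (hJ j hj e))
    obtain ⟨r, hr⟩ := hp i (by rw [one_smul]; exact sub_eq_zero.1 h5)
    by_cases h0 : r = 0
    · right
      rw [h0, zero_smul] at hr
      rw [← h, ← hr, zero_add]
      exact hj
    · left
      have := I.smul_mem r⁻¹ hi
      rwa [← hr, smul_smul, inv_mul_cancel₀ h0, one_smul] at this
  have pair : ∀ e f : A, e ∈ I ∨ e ∈ J → f ∈ I ∨ f ∈ J → e * f ≠ 0 → e * f + e + f = ew →
      (e ∈ I ∧ f ∈ I ∧ ew ∈ I) ∨ (e ∈ J ∧ f ∈ J ∧ ew ∈ J) := by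
    rintro e f (he | he) (hf | hf) hne h
    · exact Or.inl ⟨he, hf, h ▸ add_mem (add_mem (hI f hf e) he) hf⟩
    · exact absurd (hIJ e he f hf) hne
    · exact absurd (by rw [mul_comm]; exact hIJ f hf e he) hne
    · exact Or.inr ⟨he, hf, h ▸ add_mem (add_mem (hJ f hf e) he) hf⟩
  have full : ∀ M : Submodule ℚ A, ea ∈ M → eb ∈ M → ec ∈ M → ed ∈ M → ew ∈ M → M = ⊤ := by
    intro M h1 h2 h3 h4 h5
    rw [eq_top_iff]
    intro x _
    rw [decomp x]
    exact add_mem (add_mem (add_mem (add_mem (M.smul_mem _ h1) (M.smul_mem _ h2))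
      (M.smul_mem _ h3)) (M.smul_mem _ h4)) (M.smul_mem _ h5)
  rcases pair ea eb (side _ ax_a.2.1 o_a) (side _ ax_b.2.1 o_b) hab' hab with h | h <;>
  rcases pair ec ed (side _ ax_c.2.1 o_c) (side _ ax_d.2.1 o_d) hcd' hcd with h' | h'
  · right
    rw [full I h.1 h.2.1 h'.1 h'.2.1 h.2.2] at hd
    exact top_disjoint.1 hd
  · exact absurd ((Submodule.disjoint_def.1 hd) _ h.2.2 h'.2.2) hw
  · exact absurd ((Submodule.disjoint_def.1 hd) _ h'.2.2 h.2.2) hw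
  · left
    rw [full J h.1 h.2.1 h'.1 h'.2.1 h.2.2] at hd
    exact disjoint_top.1 hd

theorem indec : Indecomposable ℚ A := by
  refine ⟨⟨⟨ew, 0, hw⟩⟩, fun k hk I hne hid hz hint => ?_⟩
  let i0 : Fin k := ⟨0, by omega⟩
  let i1 : Fin k := ⟨1, by omega⟩
  have h01 : i1 ≠ i0 := by simp [i0, i1]
  have := two_sides (I i0) (⨆ (j) (_ : j ≠ i0), I j) (hid i0) ?_ ?_
    (hint.submodule_iSupIndep i0) ?_
  · rcases this with h | h
    · exact hne i0 h
    · apply hne i1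
      rw [eq_bot_iff, ← h]
      exact le_iSup₂ (f := fun j (_ : j ≠ i0) => I j) i1 h01
  · intro x hx y
    have : (⨆ (j) (_ : j ≠ i0), I j) ≤
        (⨆ (j) (_ : j ≠ i0), I j).comap (LinearMap.mul ℚ A y) :=
      iSup₂_le fun j hj z hz =>
        le_iSup₂ (f := fun j (_ : j ≠ i0) => I j) j hj (hid j z hz y)
    exact this hx
  · intro x hx y hy
    have : (⨆ (j) (_ : j ≠ i0), I j) ≤ LinearMap.ker (LinearMap.mul ℚ A x) :=
      iSup₂_le fun j hj z hz' => hz i0 j hj.symm x hx z hz'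
    exact this hy
  · rw [eq_top_iff, ← hint.submodule_iSup_eq_top]
    refine iSup_le fun j => ?_
    by_cases hj : j = i0
    · rw [hj]; exact le_sup_left
    · exact le_sup_of_le_right (le_iSup₂ (f := fun j (_ : j ≠ i0) => I j) j hj)

theorem result :
    ∃ (A : Type) (_ : NonUnitalNonAssocCommRing A) (_ : Module ℚ A) (_ : IsScalarTower ℚ A A)
      (_ : SMulCommClass ℚ A A) (X : Set A),
      (∀ a ∈ X, IsPrimAxis {1, 0, -1} (jordan (-1 : ℚ)) a) ∧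
      NonUnitalAlgebra.adjoin ℚ X = ⊤ ∧ Indecomposable ℚ A ∧ ¬ (nonAnn X).Preconnected := by
  refine ⟨A, inst, inferInstance, tower, comm, {ea, eb, ec, ed}, ?_, ?_, indec, ?_⟩
  · rintro a (rfl | rfl | rfl | rfl)
    exacts [ax_a, ax_b, ax_c, ax_d]
  · rw [eq_top_iff]
    intro x _
    set M := NonUnitalAlgebra.adjoin ℚ ({ea, eb, ec, ed} : Set A)
    have h1 : ea ∈ M := NonUnitalAlgebra.subset_adjoin ℚ (by simp)
    have h2 : eb ∈ M := NonUnitalAlgebra.subset_adjoin ℚ (by simp)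
    have h3 : ec ∈ M := NonUnitalAlgebra.subset_adjoin ℚ (by simp)
    have h4 : ed ∈ M := NonUnitalAlgebra.subset_adjoin ℚ (by simp)
    have h5 : ew ∈ M := hab ▸ add_mem (add_mem (mul_mem h1 h2) h1) h2
    rw [decomp x]
    exact add_mem (add_mem (add_mem (add_mem (M.smul_mem _ h1) (M.smul_mem _ h2))
      (M.smul_mem _ h3)) (M.smul_mem _ h4)) (M.smul_mem _ h5)
  · intro h
    have key : ∀ u v : ({ea, eb, ec, ed} : Set A), (nonAnn _).Adj u v →
        (u.1 2 + u.1 3 = v.1 2 + v.1 3) := by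
      rintro ⟨u, hu⟩ ⟨v, hv⟩ huv
      simp only [nonAnn, SimpleGraph.fromRel_adj] at huv
      have huv' : u * v ≠ 0 := by
        rcases huv.2 with h | h
        · exact h
        · rwa [mul_comm]
      rcases hu with rfl | rfl | rfl | rfl <;> rcases hv with rfl | rfl | rfl | rfl <;>
        first
          | (simp [ea, eb, ec, ed]; done)
          | (exfalso; apply huv'; apply ext' <;> simp [ea, eb, ec, ed])
    obtain ⟨p⟩ := h ⟨ea, by simp⟩ ⟨ec, by simp⟩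
    have all : ∀ (u v : ({ea, eb, ec, ed} : Set A)) (p : (nonAnn _).Walk u v),
        u.1 2 + u.1 3 = v.1 2 + v.1 3 := by
      intro u v p
      induction p with
      | nil => rfl
      | cons h _ ih => exact (key _ _ h).trans ih
    have := all _ _ p
    simp [ea, ec] at this

end Pool.Agent.Results.MP_8db76d_al.Disconnected
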